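import Pool.Agent.Helper68_Leo4.Basic

/-!
Squad leo4, module UNI: the units of `ℤ[φ]` are `± φ^n`.
-/

set_option autoImplicit false

open NumberField IsDedekindDomain Module

namespace Pool.Agent.Leo4.H63

theorem one_lt_g : (1 : ℝ) < Real.goldenRatio := Real.one_lt_goldenRatio

theorem sqrt5_gt : (22 / 10 : ℝ) < Real.sqrt 5 := by
  rw [show (22 / 10 : ℝ) = Real.sqrt ((22 / 10) ^ 2) by rw [Real.sqrt_sq (by norm_num)]]
  exact Real.sqrt_lt_sqrt (by norm_num) (by norm_num)

theorem sqrt5_lt : Real.sqrt 5 < (23 / 10 : ℝ) := by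
  rw [show (23 / 10 : ℝ) = Real.sqrt ((23 / 10) ^ 2) by rw [Real.sqrt_sq (by norm_num)]]
  exact Real.sqrt_lt_sqrt (by norm_num) (by norm_num)

/-- A unit with `1 ≤ x₁ < g` is `1`. -/
theorem core {x : O} (hx : IsUnit x) (h1 : 1 ≤ e1 x) (h2 : e1 x < Real.goldenRatio) : x = 1 := by
  have hn : |e1 x * e2 x| = 1 := by
    rw [← nm_eq]
    rcases isUnit_iff_nm.1 hx with h | h
    · rw [h]; norm_num
    · rw [h]; norm_num
  have he : |e2 x| ≤ 1 := by
    rw [abs_mul, abs_of_pos (by linarith : 0 < e1 x)] at hn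
    nlinarith [abs_nonneg (e2 x)]
  obtain ⟨he1, he2⟩ := abs_le.1 he
  have hg : Real.goldenRatio = (1 + Real.sqrt 5) / 2 := rfl
  have hs1 := sqrt5_gt
  have hs2 := sqrt5_lt
  have him := im_eq x
  have htr := tr_eq x
  have him0 : (-1 : ℝ) < x.im := by
    by_contra hc
    push Not at hc
    nlinarith
  have him1 : (x.im : ℝ) < 2 := by
    by_contra hc
    push Not at hc
    nlinarith
  have him0' : (-1 : ℤ) < x.im := by exact_mod_cast him0
  have him1' : x.im < 2 := by exact_mod_cast him1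
  have hcase : x.im = 0 ∨ x.im = 1 := by omega
  rcases hcase with h0 | h0
  · rw [h0] at htr
    push_cast at htr
    have hr0 : (-1 : ℝ) < x.re := by nlinarith
    have hr1 : (x.re : ℝ) < 2 := by nlinarith
    have hr0' : (-1 : ℤ) < x.re := by exact_mod_cast hr0
    have hr1' : x.re < 2 := by exact_mod_cast hr1
    have hcase2 : x.re = 0 ∨ x.re = 1 := by omega
    rcases hcase2 with h3 | h3
    · exfalso
      have : x = 0 := by
        ext
        · exact h3
        · exact h0
      rw [this, e1_zero] at h1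
      norm_num at h1
    · ext
      · rw [h3, QuadraticAlgebra.re_one]
      · rw [h0, QuadraticAlgebra.im_one]
  · exfalso
    rw [h0] at htr
    push_cast at htr
    have hr0 : (-1 : ℝ) < x.re := by nlinarith
    have hr1 : (x.re : ℝ) < 1 := by nlinarith
    have hr0' : (-1 : ℤ) < x.re := by exact_mod_cast hr0
    have hr1' : x.re < 1 := by exact_mod_cast hr1
    have h3 : x.re = 0 := by omega
    have : x = phi := by
      ext
      · exact h3
      · exact h0
    rw [this, e1_phi] at h2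
    exact lt_irrefl _ h2

theorem phi_mul : (phi - 1) * phi = (1 : O) := by
  ext
  · simp [phi, QuadraticAlgebra.re_one, QuadraticAlgebra.im_one]
  · simp [phi, QuadraticAlgebra.re_one, QuadraticAlgebra.im_one]

theorem isUnit_phi : IsUnit phi := isUnit_iff_nm.2 (Or.inr nm_phi)

theorem isUnit_phi_sub : IsUnit (phi - 1) := IsUnit.of_mul_eq_one _ phi_mul

theorem e1_phi_sub : e1 (phi - 1) = Real.goldenRatio⁻¹ := by
  have h := congrArg e1 phi_mul
  rw [e1_mul, e1_phi, e1_one] at h
  exact eq_inv_of_mul_eq_one_left h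

/-- The case `x₁ > 0`. -/
theorem pos {x : O} (hx : IsUnit x) (h : 0 < e1 x) : ∃ n : ℕ, x = phi ^ n ∨ x * phi ^ n = 1 := by
  have hg : (0 : ℝ) < Real.goldenRatio := Real.goldenRatio_pos
  obtain ⟨n, hn1, hn2⟩ := exists_mem_Ico_zpow h one_lt_g
  rcases Int.eq_nat_or_neg n with ⟨k, rfl | rfl⟩
  · refine ⟨k, Or.inl ?_⟩
    have hk : x * (phi - 1) ^ k = 1 := by
      apply core (hx.mul (isUnit_phi_sub.pow k))
      · rw [e1_mul, e1_pow, e1_phi_sub, inv_pow, ← div_eq_mul_inv, le_div_iff₀ (pow_pos hg k), one_mul]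
        simpa using hn1
      · rw [e1_mul, e1_pow, e1_phi_sub, inv_pow, ← div_eq_mul_inv, div_lt_iff₀ (pow_pos hg k), ← pow_succ']
        have : (Real.goldenRatio : ℝ) ^ ((k : ℤ) + 1) = Real.goldenRatio ^ (k + 1) := by
          exact_mod_cast zpow_natCast Real.goldenRatio (k + 1)
        rw [← this]
        exact hn2
    calc x = x * ((phi - 1) * phi) ^ k := by rw [phi_mul, one_pow, mul_one]
      _ = (x * (phi - 1) ^ k) * phi ^ k := by rw [mul_pow, mul_assoc]
      _ = phi ^ k := by rw [hk, one_mul]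
  · refine ⟨k, Or.inr ?_⟩
    apply core (hx.mul (isUnit_phi.pow k))
    · rw [e1_mul, e1_pow, e1_phi]
      rw [zpow_neg, zpow_natCast, inv_le_iff_one_le_mul₀ (pow_pos hg k)] at hn1
      exact hn1
    · rw [e1_mul, e1_pow, e1_phi]
      have h3 : Real.goldenRatio ^ (-(k : ℤ) + 1) * Real.goldenRatio ^ k = Real.goldenRatio := by
        rw [← zpow_natCast, ← zpow_add₀ hg.ne']
        rw [show (-(k : ℤ) + 1 + k) = 1 by ring, zpow_one]
      calc e1 x * Real.goldenRatio ^ k < Real.goldenRatio ^ (-(k : ℤ) + 1) * Real.goldenRatio ^ k :=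
            mul_lt_mul_of_pos_right hn2 (pow_pos hg k)
        _ = Real.goldenRatio := h3

theorem uni : UniStmt := by
  intro x hx
  rcases lt_trichotomy (e1 x) 0 with h | h | h
  · obtain ⟨n, hn⟩ := pos hx.neg (by rw [e1_neg]; linarith)
    refine ⟨n, ?_⟩
    rcases hn with hn | hn
    · refine Or.inr (Or.inl ?_)
      rw [← hn, neg_neg]
    · refine Or.inr (Or.inr (Or.inr ?_))
      rw [← hn]
      ring
  · exact absurd h (e1_ne_zero hx.ne_zero)
  · obtain ⟨n, hn⟩ := pos hx h
    refine ⟨n, ?_⟩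
    rcases hn with hn | hn
    · exact Or.inl hn
    · exact Or.inr (Or.inr (Or.inl hn))

end Pool.Agent.Leo4.H63
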